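import Pool.Agent.Run7.h913.SH.Thm
import Pool.Agent.R887.Exc

/-!
The group of the birational self-maps of a minimal variety whose canonical divisor has numerical
dimension at least `n - 1`: the classes of the pull backs of divisors are quadratic polynomials, as
for the Néron-Tate height on an elliptic fibration, the classes which should come from the base are
fixed, and the inequality of Shioda and Tate holds. Otherwise the numerical dimension is at most
`n - 2`.
-/

set_option autoImplicit false

open FF Pool.Agent.W602.GT Pool.Agent.Y172 Pool.Agent.R887 Pool.Agent.N110 Run7.h528.NR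
open Run7.h913.SH

namespace Pool.Agent.Results.MP_5ff3c6_ag.CanonicalHeights

/-- The numerical dimension and the Kodaira dimension of `K_X + Δ` are at most `n - 2`, and they are
equal if the Kodaira dimension is at least `n - 2`. -/
def CodimTwo {K : Type} [Field K] [Algebra ℂ K] {N : ℕ} (y : Fin (N + 1) → K) (n : ℕ)
    (Δ : Place ℂ K → ℚ) : Prop :=
  NumDimLt y n Δ (n - 1) ∧ ¬ KappaGe y n Δ (n - 1) ∧ (KappaGe y n Δ (n - 2) → Abundant y n Δ)

/-- The movable divisors `U` such that `K_X + Δ + U` is not big. If `K_X + Δ` is the pull back of an
ample divisor on the base of an elliptic fibration then these are the movable divisors which are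
numerically trivial on the fibres. -/
def Vertical {K : Type} [Field K] [Algebra ℂ K] {N : ℕ} (y : Fin (N + 1) → K) (n : ℕ)
    (Δ : Place ℂ K → ℚ) : Set (Place ℂ K → ℚ) :=
  {U | {P | IsPrimeDivisor y P ∧ U P ≠ 0}.Finite ∧ MovD y U ∧ NumDimLt y n (Δ + U) n}

/-- Let `X` be a normal projective variety of dimension `n ≥ 2`, with generic point `y`, and `Δ ≥ 0`
a `ℚ`-divisor on `X`. Let the vectors `c P` in `ℤ ^ ρ` be the numerical classes of the prime divisors
`P` of `X` (they exist by the theorem of Néron and Severi).

Let `(X, Δ)` be a terminal pair with `K_X + Δ` nef, for instance let `X` be a minimal variety and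
`Δ = 0`. Let `G` be any group of birational self-maps of `X` which preserve `K_X + Δ` (this is no
condition if `Δ = 0`: then `G` can be the group of all birational self-maps of `X`). More generally,
let `(X, Δ)` be arbitrary, and `G` a group of isomorphisms in codimension one which preserve
`K_X + Δ`. Then at least one of the following holds:
* the numerical dimension and the Kodaira dimension of `K_X + Δ` are at most `n - 2`, and they are
  equal if the Kodaira dimension is at least `n - 2` (`CodimTwo`);
* `G` is of Mordell-Weil type over the set `S` of the movable divisors `U` for which `K_X + Δ + U` is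
  not big (`MordellWeilOver`, `Vertical`): there are a normal subgroup `G₀` of finite index in `G` and
  a surjective homomorphism `Φ` from `G₀` onto `ℤ ^ r` with the following properties.
  - The kernel of `Φ` acts trivially on the numerical classes of the divisors.
  - For every divisor `U` there are divisors `A i` and `B i j` such that `g^* U` is numerically
    equivalent to `U + ∑ i, Φ g i • A i + ∑ i, ∑ j, (Φ g i * Φ g j) • B i j` for all `g` in `G₀`. The
    classes of the `B i j = B j i` are fixed by `G₀`. The quadratic form `B` takes its values in the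
    pseudo-effective cone if `U` is effective, and does not take the value zero, except at zero, if
    `U` is a hyperplane section. The degree `g^* H · H ^ (n - 1)` is at most `C (|Φ g| ^ 2 + 1)` and at
    least `|Φ g| ^ 2 / C`, where `C` does not depend on `g`.
  - The classes of the divisors in `S` are fixed by `G₀`, and no element `g` of `G₀` with `Φ g ≠ 0`
    fixes a big class.
  - `r = 0` or `r + 1 + k ≤ ρ`, where `k` is the dimension of the space of the classes which are fixed
    by `G₀`.

So if the numerical dimension of `K_X + Δ` is at least `n - 1` then `G` looks like the Mordell-Weil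
group of an elliptic fibration, with its height pairing and with the inequality of Shioda and Tate, as
the abundance conjecture predicts. -/
theorem result {K : Type} [Field K] [Algebra ℂ K] {N n : ℕ} {y : Fin (N + 1) → K}
    (hy : NormalModel y) (hn : Algebra.trdeg ℂ K = n) (hn1 : 1 < n) {Δ : Place ℂ K → ℚ}
    (hΔ : Effective y Δ) {ρ : ℕ} {c : Place ℂ K → Fin ρ → ℤ} (hc : NumClasses y c)
    (G : Subgroup (K ≃ₐ[ℂ] K))
    (hG : (TerminalPair y n Δ ∧ LogNef y n Δ ∧ (Δ = 0 ∨ ∀ g ∈ G, PullLe g y n Δ)) ∨
      (∀ g ∈ G, PseudoAut g y ∧ PullLe g y n Δ)) :
    CodimTwo y n Δ ∨ MordellWeilOver y n c (Vertical y n Δ) G := by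
  have hG' : ∀ g ∈ G, PseudoAut g y ∧ PullLe g y n Δ := by
    rcases hG with ⟨hT, hnef, hP⟩ | h
    · have hP' : ∀ g ∈ G, PullLe g y n Δ := by
        rcases hP with rfl | h
        · exact fun g _ => pullLe_terminal hy hn hT g
        · exact h
      exact fun g hg => ⟨pseudo_of_terminal hy hn hΔ.1 hT hnef (hP' g hg)
        (hP' g⁻¹ (G.inv_mem hg)), hP' g hg⟩
    · exact h
  rcases st_K hy hn hn1 hc hΔ.2 G (fun g hg => (hG' g hg).1) (fun g hg => (hG' g hg).2) with
    h | h
  · refine Or.inl ⟨h, ?_, fun h1 => ⟨n - 2, h1, ?_⟩⟩
    · rintro ⟨m, hm, ω, E, hω, h0, hind⟩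
      exact kappa_lt hy hn (Nat.sub_le _ _) h hm hω h0 hind
    · rwa [show n - 2 + 1 = n - 1 by omega]
  · exact Or.inr h

end Pool.Agent.Results.MP_5ff3c6_ag.CanonicalHeights
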