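import Pool.Agent.R882.TEll2

/-!
# Abundance for the images of nondegenerate complete intersections

Let `V` be a component, of dimension `n ≥ 1`, of the set of common zeros in the torus of a system `f`
of Laurent polynomials in `n + q` variables which is nondegenerate in the sense of Khovanskii, with
arbitrary Newton polytopes. Let `u`, `w 1, ..., w N` be integral vectors such that `u` and the
`u + M w j` are in the Fine interior of the Minkowski sum of the Newton polytopes, and let `V'` be the
image of `V` under the monomials `t j = x ^ w j`. It is assumed that `d = dim V'` is the dimension of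
the image of `V` under all the monomials whose exponents are parallel to the Fine interior; so
`V ⇢ V'` is the Iitaka fibration of `V`, up to a generically finite map, and `κ(V) = ν(V) = d`.

Let `V ⇢ W` be a dominant rational map of finite degree. It is arbitrary: not a quotient by a group,
not related to the torus or to the fibration, and its ramification is arbitrary. Let `W'` be the image
of `V` in `W × V'`, and `m` the degree of `W' → W`, at most the degree of `V ⇢ W`.

* Suppose that `V` is birational to `W'` (the general fibres of `V ⇢ V'` are mapped birationally to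
  `W`), for instance `d = n` and `V` is birational to `V'`. If `m ≤ M + 1` then `p_g(W) > 0`. If
  `2 m ≤ M + 1` then `κ(X) = ν(X) = d` for all projective varieties `X` with canonical singularities
  which are birational to `W`.
* Suppose that `d = n - 1` and that the generic fibre of `V ⇢ V'` is irreducible; it is a curve of
  genus one, a complete intersection in a torus of dimension `q + 1`. Here `V ⇢ W` is arbitrary. If
  `m ≤ M + 1` then `p_g(W) = 0` if and only if `κ(W) = -∞`, if and only if `K_W` is not
  pseudo-effective, if and only if `W` is uniruled. If `2 m ≤ M + 1` then all projective varieties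
  `X` with canonical singularities which are birational to `W` satisfy `κ(X) = ν(X)`: both are `-∞`,
  and `W` is uniruled, or both are `n - 1`.

A minimal variety `X` has terminal singularities and `ν(X) ≥ 0`, and `K_X` is semiample if
`κ(X) = ν(X)` (Kawamata). So the abundance conjecture holds for all minimal varieties `X` which are
birational to such an image `W`, `2 m ≤ M + 1`.

For example, let `V` be a general complete intersection of `q` hypersurfaces of the multidegrees
`(e_{l 1}, ..., e_{l (n-1)}, b_l)` in `(ℙ ^ 1) ^ (n - 1) × ℙ ^ (q + 1)` with `∑ b_l = q + 2` and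
`∑ l, e_{l i} ≥ M + 2` for all `i`; or the fibres may be given by any nef partition of a reflexive
polytope of dimension `q + 1`.

The function-field language of the starting repository is used: `K` and `L` are the function fields of
`V` and `W`; a variety `X` with the function field `L` is given by the homogeneous coordinates `y` of
its generic point (`Pool/Agent/Y172/Defs.lean`, `Canonical` in `Pool/Agent/Y191/CanA.lean`).

Proof. The residue form `ω = x ^ u Res` is a section of `K_V - M H`, where `H` is the pullback of the
hyperplane class under `t`. If its trace on `W'` is not zero, then the traces on `W` of the forms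
`A(t) ω`, where `A` is a polynomial of degree at most `M`, show that `p_g(W) > 0` and `κ(W) ≥ d`
(`core_img` in `Pool/Agent/R882/TCore.lean`), and `ν(W) ≤ ν(V) = d` by `R885.main`. If `d = n - 1`,
then the geometric generic fibre `C` of `V ⇢ V'` has numerical dimension zero (`R885.fibre_zero`), so
its regular differentials are the multiples of the restriction of `ω` (`span_toric` in
`Pool/Agent/R882/TEll2.lean`). If the trace of `ω` on `W'` is zero, then it follows that the image of
`C` in the geometric generic fibre of `W' ⇢ V'` is rational (`GL.dich`), and so `W'` and `W` are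
uniruled. The libraries `R882` and `R885` are starting files; this theorem is not stated there.
-/

set_option autoImplicit false
set_option linter.overlappingInstances false
set_option maxHeartbeats 4000000
set_option synthInstance.maxHeartbeats 400000

open FF Module Pool.Agent Pool.Agent.W602.GT Pool.Agent.R885 Pool.Agent.Y172 Pool.Agent.Y191
open Pool.Agent.W619.PQ (IsUniruled)

namespace Pool.Agent.Results.MP_5ff3c6_ag.ImagesOfIntersections

section

variable {r q : ℕ}

/-- The Laurent polynomials `f l` are nondegenerate: the initial parts `ini v (f l)` have linearly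
independent logarithmic gradients at all their common zeros in the torus. -/
def Nondegenerate (f : Fin q → (Fin r → ℤ) →₀ ℂ) : Prop :=
  ∀ v : Fin r → ℤ, ∀ c : Fin r → ℂ, (∀ i, c i ≠ 0) → (∀ l, ev c (ini v (f l)) = 0) →
    LinearIndependent ℂ fun l => gr c (ini v (f l))

/-- `x` is the generic point of a subvariety, with function field `K`, of the set of common zeros
of the `f l` in the torus `(ℂ^*) ^ r`. -/
def IsGenericPoint {K : Type} [Field K] [Algebra ℂ K] (f : Fin q → (Fin r → ℤ) →₀ ℂ)
    (x : Fin r → K) : Prop :=
  (∀ i, x i ≠ 0) ∧ (∀ l, ev x (f l) = 0) ∧ IntermediateField.adjoin ℂ (Set.range x) = ⊤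

/-- The Fine interior of the Minkowski sum of the Newton polytopes of the `f l`: the rational vectors
`y` with `⟨y, v⟩ ≥ 1 + ∑ l, min ⟨supp (f l), v⟩` for all nonzero integral vectors `v`. -/
def FineInterior (f : Fin q → (Fin r → ℤ) →₀ ℂ) : Set (Fin r → ℚ) :=
  {y | ∀ v : Fin r → ℤ, v ≠ 0 → 1 + ∑ l, (mn v (f l) : ℚ) ≤ ∑ i, y i * (v i : ℚ)}

/-- The integral vectors which are parallel to the Fine interior. -/
def Directions (f : Fin q → (Fin r → ℤ) →₀ ℂ) : Set (Fin r → ℤ) :=
  {w | ∃ y ∈ FineInterior f, ∃ N : ℕ, 1 ≤ N ∧ (fun i => y i + (w i : ℚ) / N) ∈ FineInterior f}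

/-- The integral vector `u` is in the Fine interior. -/
def InFine (f : Fin q → (Fin r → ℤ) →₀ ℂ) (u : Fin r → ℤ) : Prop :=
  (fun i => (u i : ℚ)) ∈ FineInterior f

end

section

variable (L : Type) [Field L] [Algebra ℂ L]

/-- The geometric genus of the variety of dimension `n` with the function field `L` is zero: the only
canonical form which is regular at all prime divisors is `0`. -/
def GenusZero (n : ℕ) : Prop :=
  ∀ ω : (Fin n → Derivation ℂ L L) → L, IsPluri 1 ω →
    (∀ P : Place ℂ L, Divisorial n P → RegAt P ω) → ∀ D, ω D = 0

/-- `κ(X) = ν(X) = d` for all projective varieties `X` of dimension `n` with canonical singularities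
and the function field `L` (with any effective integral divisor `A` in the definition of `ν`). -/
def Dimensions (n d : ℕ) : Prop :=
  ∀ (N : ℕ) (y : Fin (N + 1) → L), NormalModel y → Canonical y n →
    kodairaDim y n 0 = (d : WithBot ℕ) ∧
      ∀ A, Effective y A → Integral y A → numericalDim y n 0 A = (d : EReal)

/-- `κ(X) = ν(X) = -∞` for all projective varieties `X` of dimension `n` with canonical singularities
and the function field `L`. -/
def DimensionsNegative (n : ℕ) : Prop :=
  ∀ (N : ℕ) (y : Fin (N + 1) → L), NormalModel y → Canonical y n →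
    kodairaDim y n 0 = ⊥ ∧ ∀ A, Effective y A → Integral y A → numericalDim y n 0 A = ⊥

end

theorem fine_lt {r q : ℕ} {f : Fin q → (Fin r → ℤ) →₀ ℂ} {u : Fin r → ℤ} (h : InFine f u) :
    Pool.Agent.R882.LT.InFine f u := Pool.Agent.R882.LT.inFine_of h

theorem fine_cast {r q : ℕ} {f : Fin q → (Fin r → ℤ) →₀ ℂ} {u : Fin r → ℤ}
    (h : Pool.Agent.R882.LT.InFine f u) : (fun i => (u i : ℚ)) ∈ R885.FineInt f := by
  intro v hv
  have h1 := h v hv
  have h2 : (1 + ∑ l, (mn v (f l) : ℚ)) = ((1 + ∑ l, mn v (f l) : ℤ) : ℚ) := by push_cast; rfl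
  have h3 : ∑ i, (u i : ℚ) * (v i : ℚ) = ((u ⬝ᵥ v : ℤ) : ℚ) := by
    unfold dotProduct
    push_cast
    rfl
  beta_reduce
  rw [h2, h3]
  exact_mod_cast h1

/-- varieties with canonical singularities and `ν = -∞` -/
theorem dims_neg {L : Type} [Field L] [Algebra ℂ L] {n : ℕ} (htr : Algebra.trdeg ℂ L = (n : ℕ))
    (h : Pool.Agent.W619.TW.NumNeg ℂ L n (fun _ => False)) : DimensionsNegative L n := by
  classical
  intro N y hy hcan
  obtain ⟨x, E, hx, hE⟩ := exists_crd htr
  have hfr : IsFrame E := fun G =>
    ⟨fun j => G (x j), (Pool.Agent.W73.PG.PULL.expand x hx E hE G).symm⟩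
  have key : ∀ A, Effective y A → kodairaDim y n 0 = ⊥ ∧ numericalDim y n 0 A = ⊥ := by
    intro A hA
    refine not_psef hA fun hcon => ?_
    choose s hs hs0 hsQ using fun j => can_bound hy hcan hA hfr j
    obtain ⟨m0, hm0⟩ := h (Finset.univ.image fun j => (s j)⁻¹)
    obtain ⟨m', hm', s', hs', hne⟩ := hcon (m0 + 1)
    refine hm0 m' (by omega) ⟨fun _ => s', ?_, fun l => ⟨hs'.1, ?_, fun v _ h => h.elim⟩⟩
    · exact LinearIndependent.of_subsingleton (0 : Fin 1) hne
    · intro Q hQ _ E' hE'
      obtain ⟨j, hj⟩ := exists_centred hy Q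
      have h4 : IsSection y n m' A s' := by
        have h5 := hs'
        rw [smul_zero, zero_add] at h5
        exact h5
      rcases hsQ j Q hQ hj m' (by omega) s' h4 E' hE' with h5 | h5
      · exact Or.inl h5
      · right
        refine ⟨(s j)⁻¹, Finset.mem_image_of_mem _ (Finset.mem_univ j), inv_ne_zero (hs0 j), ?_⟩
        rw [Q.ord_inv, Nat.cast_one, one_mul]
        exact_mod_cast h5
  exact ⟨(key 0 ⟨fun _ _ => le_rfl, by simp⟩).1, fun A hA _ => (key A hA).2⟩

/-- **Images of nondegenerate complete intersections.** Let `V` be a component, of dimension `n ≥ 1`,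
of the set of common zeros of a nondegenerate system `f`, with function field `K` and generic point
`x`. Let `u` and the `u + M w j` be in the Fine interior, `t j` the monomial with the exponent `w j`,
and let the transcendence degree `d` of `ℂ(t)` be the one of the field generated by all monomials whose
exponents are parallel to the Fine interior. Let `V ⇢ W` be a dominant rational map of finite degree,
and `L` the function field of `W`.
(1) If `K = L(t)` then `p_g(W) > 0` if `[K : L] ≤ M + 1`, and if `2 [K : L] ≤ M + 1` then
`κ(X) = ν(X) = d` for all projective varieties `X` with canonical singularities birational to `W`.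
(2) Let `d = n - 1` and let `ℂ(t)` be algebraically closed in `K`. If `[L(t) : L] ≤ M + 1` then
`p_g(W) = 0` if and only if `κ(W) = -∞`, if and only if `K_W` is not pseudo-effective, if and only if
`W` is uniruled. If `2 [L(t) : L] ≤ M + 1` then `κ(X) = ν(X)` for all projective varieties `X` with
canonical singularities birational to `W`: both are `-∞`, and `W` is uniruled, or both are `n - 1`. -/
theorem result {n q N M d : ℕ} (hn : 1 ≤ n) (hM : 1 ≤ M) {f : Fin q → (Fin (n + q) → ℤ) →₀ ℂ}
    (hf : Nondegenerate f) {K : Type} [Field K] [Algebra ℂ K] {x : Fin (n + q) → K}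
    (hx : IsGenericPoint f x) (hK : Algebra.trdeg ℂ K = (n : ℕ)) {u : Fin (n + q) → ℤ}
    {w : Fin N → Fin (n + q) → ℤ} (hu : InFine f u) (hw : ∀ j, InFine f (u + (M : ℤ) • w j))
    {t : Fin N → K} (ht : ∀ j, t j = R885.mono x (w j))
    (hd : Algebra.trdeg ℂ (IntermediateField.adjoin ℂ (Set.range t)) = (d : ℕ))
    (hdir : Algebra.trdeg ℂ (IntermediateField.adjoin ℂ {z : K |
      ∃ w ∈ Directions f, z = R885.mono x w}) = (d : ℕ))
    (L : Type) [Field L] [Algebra ℂ L] [Algebra L K] [IsScalarTower ℂ L K]
    [FiniteDimensional L K] :
    (IntermediateField.adjoin L (Set.range t) = ⊤ →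
      (Module.finrank L K ≤ M + 1 → ¬ GenusZero L n) ∧
      (2 * Module.finrank L K ≤ M + 1 → Dimensions L n d)) ∧
    (n = d + 1 →
      (∀ g : K, IsAlgebraic (IntermediateField.adjoin ℂ (Set.range t)) g →
        g ∈ IntermediateField.adjoin ℂ (Set.range t)) →
      (Module.finrank L (IntermediateField.adjoin L (Set.range t)) ≤ M + 1 →
        [GenusZero L n, ¬ KodGe ℂ L n (fun _ => False) 0, ¬ Psef ℂ L n (fun _ => False),
          IsUniruled ℂ L n].TFAE) ∧
      (2 * Module.finrank L (IntermediateField.adjoin L (Set.range t)) ≤ M + 1 →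
        (IsUniruled ℂ L n ∧ DimensionsNegative L n) ∨ Dimensions L n d)) := by
  classical
  have hess : Algebra.EssFiniteType ℂ K := by
    rw [← IntermediateField.fg_top_iff, ← hx.2.2]
    exact ⟨Finset.univ.image x, by rw [Finset.coe_image, Finset.coe_univ, Set.image_univ]⟩
  have hL : Algebra.trdeg ℂ L = (n : ℕ) := Pool.Agent.Y184.NT.trdeg_below (K := K) hK
  have hessL : Algebra.EssFiniteType ℂ L := Pool.Agent.TH466.QG.ess_below (K := K)
  have hnd : ∀ v, NonDeg ℂ f v := fun v => hf v
  have e : Fin q ⊕ Fin n ≃ Fin (n + q) := Fintype.equivOfCardEq (by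
    rw [Fintype.card_sum, Fintype.card_fin, Fintype.card_fin, Fintype.card_fin, add_comm])
  obtain ⟨ω, hω, hne⟩ := Pool.Agent.R882.LT.exists_twisted (w := w) hK hx.1 hx.2.2 e hx.2.1 hnd hM
    (fine_lt hu) fun j => fine_lt (hw j)
  have htE : t = fun j => R885.mono x (w j) := funext ht
  rw [← htE] at hω
  have hF : (R885.FineInt f).Nonempty := ⟨_, hu⟩
  -- the numerical dimension
  obtain ⟨-, hnumK⟩ := R885.main hn rfl hK hx.1 hx.2.2 hx.2.1 hnd hF hdir
  have hnumL : Pool.Agent.W619.TW.NumLe ℂ L n (fun _ => False) d :=
    Pool.Agent.R882.LT.numLe_down (K := K) hK hnumK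
  have hdims : Pool.Agent.W619.Y.KodTrB ℂ L n (fun _ => False) d → Dimensions L n d :=
    fun h _ y hy hcan => R885.dims_of hL hy hcan h hnumL
  refine ⟨fun htop => ?_, fun hnd1 hcl => ?_⟩
  · have h1 : (IntermediateField.adjoin L (Set.range t)).restrictScalars ℂ = ⊤ := by
      rw [htop]
      rfl
    have h2 := Pool.Agent.R882.LT.core_img (L := L) hK hd rfl hω
      (Pool.Agent.R882.LT.traceNe_top hK hne h1)
    rw [htop, IntermediateField.finrank_top'] at h2
    refine ⟨fun hm hg => ?_, fun hm => hdims (h2.2 hm)⟩
    obtain ⟨η, hη, hηr, D, hD⟩ := h2.1 hm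
    exact hD (hg η hη hηr D)
  · subst hnd1
    -- the exponents are parallel to the Fine interior
    have hwd : ∀ j, w j ∈ R885.dirs f := by
      intro j
      refine ⟨fun i => (u i : ℚ), hu, 1, le_rfl, ?_⟩
      have h1 := Pool.Agent.R882.LT.inFine_comb (w := w) hM (fine_lt hu) (fun j => fine_lt (hw j))
        (Pi.single j 1) (by rw [Finset.sum_pi_single']; simpa using hM)
      have h2 : u + ∑ i, ((Pi.single j 1 : Fin N → ℕ) i : ℤ) • w i = u + w j := by
        congr 1
        rw [Finset.sum_eq_single j]
        · rw [Pi.single_eq_same, Nat.cast_one, one_smul]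
        · intro i _ hi
          rw [Pi.single_eq_of_ne hi, Nat.cast_zero, zero_smul]
        · intro h
          exact absurd (Finset.mem_univ j) h
      rw [h2] at h1
      have h3 := fine_cast h1
      have h4 : (fun i => (u i : ℚ) + (w j i : ℚ) / ((1 : ℕ) : ℚ)) =
          fun i => (((u + w j) i : ℤ) : ℚ) := by
        funext i
        rw [Pi.add_apply, Nat.cast_one, div_one]
        push_cast
        rfl
      rw [h4]
      exact h3
    have hBd : ∀ w' ∈ R885.dirs f, R885.mono x w' ∈ IntermediateField.adjoin ℂ (Set.range t) := by
      intro w' hw'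
      apply hcl
      refine Pool.Agent.R882.GL.alg_of_trdeg hdir hd ?_
        (IntermediateField.subset_adjoin _ _ ⟨w', hw', rfl⟩)
      rintro _ ⟨j, rfl⟩
      rw [ht]
      exact IntermediateField.subset_adjoin _ _ ⟨w j, hwd j, rfl⟩
    have hspan : Pool.Agent.R882.GL.SpanFib (J := Unit) (IntermediateField.adjoin ℂ (Set.range t))
        (fun _ => ω) :=
      Pool.Agent.R882.GL.span_toric rfl hx.1 hx.2.2 hx.2.1 hnd hF hdir hBd hne
    have hregω : ∀ P : Place ℂ K, Divisorial (d + 1) P → RegAt P ω := by
      intro P hP D hD
      have h1 := hω.2 0 (by simp) P hP D hD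
      simpa using h1
    -- the image in `W × V'`
    have hle : IntermediateField.adjoin ℂ (Set.range t) ≤
        (IntermediateField.adjoin L (Set.range t)).restrictScalars ℂ := by
      rw [IntermediateField.adjoin_le_iff]
      exact IntermediateField.subset_adjoin L _
    obtain ⟨E', hE'⟩ : ∃ E' : IntermediateField (IntermediateField.adjoin ℂ (Set.range t)) K,
        E' = IntermediateField.extendScalars hle := ⟨_, rfl⟩
    have hE'r : E'.restrictScalars ℂ =
        (IntermediateField.adjoin L (Set.range t)).restrictScalars ℂ := by
      rw [hE']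
      exact IntermediateField.extendScalars_restrictScalars hle
    have hfinE : FiniteDimensional E' K := by
      have h1 : FiniteDimensional (IntermediateField.adjoin L (Set.range t)) K := inferInstance
      rw [hE']
      exact h1
    have huni : ¬ Pool.Agent.R882.LT.TraceNe ω
        ((IntermediateField.adjoin L (Set.range t)).restrictScalars ℂ) →
        IsUniruled ℂ L (d + 1) := by
      intro h
      have h1 := Pool.Agent.R882.GL.dich hK _ hd hcl E' (fun _ : Unit => ω) (fun _ => hω.1)
        (fun _ => hregω) hspan (fun _ => by rw [hE'r]; exact h)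
      rw [hE'r] at h1
      obtain ⟨C, i1, i2, hC, htr, ⟨ψ⟩⟩ := h1
      let φ : L →ₐ[ℂ] ((IntermediateField.adjoin L (Set.range t)).restrictScalars ℂ :
          IntermediateField ℂ K) :=
        { toFun := fun g => ⟨algebraMap L K g,
            (IntermediateField.adjoin L (Set.range t)).algebraMap_mem g⟩
          map_one' := Subtype.ext (map_one _)
          map_mul' := fun a b => Subtype.ext (map_mul _ _ _)
          map_zero' := Subtype.ext (map_zero _)
          map_add' := fun a b => Subtype.ext (map_add _ _ _)
          commutes' := fun c => Subtype.ext (IsScalarTower.algebraMap_apply ℂ L K c).symm }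
      exact ⟨C, i1, i2, hC, htr, ⟨ψ.comp φ⟩⟩
    refine ⟨fun hs => ?_, fun hs => ?_⟩
    · tfae_have 1 → 4 := by
        intro hg
        refine huni fun htr => ?_
        obtain ⟨η, hη, hηr, D, hD⟩ :=
          (Pool.Agent.R882.LT.core_img (L := L) hK hd rfl hω htr).1 hs
        exact hD (hg η hη hηr D)
      tfae_have 4 → 3 := fun h h' =>
        (Pool.Agent.W619.Y.uniruled_neg (d + 1) hL h).1
          ((Pool.Agent.TH466.QG.psef_iff (d + 1)).1 h')
      tfae_have 3 → 2 := fun h h' => h (psef_of_kodGe h')
      tfae_have 2 → 1 := by
        intro h ω hω hreg D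
        by_contra hne
        refine h ⟨1, one_pos, fun _ => ω, fun _ => ⟨hω, fun P hP D' hD' => ?_,
          fun P hP _ => hreg P hP⟩, D, hne, ?_⟩
        · exact hreg P hP D' fun i => Pool.Agent.TH466.QG.derReg_of_log (hD' i)
        · exact algebraicIndependent_empty_type
      tfae_finish
    · by_cases htr : Pool.Agent.R882.LT.TraceNe ω
        ((IntermediateField.adjoin L (Set.range t)).restrictScalars ℂ)
      · exact Or.inr (hdims ((Pool.Agent.R882.LT.core_img (L := L) hK hd rfl hω htr).2 hs))
      · have h1 := huni htr
        exact Or.inl ⟨h1, dims_neg hL (Pool.Agent.W619.Y.uniruled_neg (d + 1) hL h1).2⟩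

end Pool.Agent.Results.MP_5ff3c6_ag.ImagesOfIntersections
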