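import Pool.Agent.Run7.h260.TW.Fin

/-!
# Images of towers over hypersurfaces and over coverings of complete intersections: general type or
uniruled

A tower of dimension `n` with the bound `s` (`Tower 3 n Base K s`) is a sequence of dominant rational
maps of finite degree `V = V_0 ⇢ V_1 ⇢ ... ⇢ V_k` between varieties of dimension `n` over `ℂ`. At the step
`V_i ⇢ V_(i + 1)`, of degree `b_i`, the canonical bundle of `V_i` is positive relative to `V_(i + 1)`
(`Positive`): `V_(i + 1)` is the image of `V_i` in a projective space, and for all varieties `Y'`,
`V_i ⇢ Y' ⇢ V_(i + 1)`, of degree `> 1` over `V_(i + 1)` there is a section of `K_(V_i) - m H` with a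
nonzero trace on `Y'`, where `s_i ≤ [V_i : Y'] (m + 1)`. The bounds are `s_0 = s`,
`s_(i + 1) = ⌊s_i / b_i⌋`. The last variety `V_k`, with the bound `s_k`, is

* a smooth hypersurface of degree `d` in `ℙ^(n + 1)`, where for some `N` one has `d ≥ 7 N + n + 6`,
  `d > (n + 1) N`, `d > 3 (N + n - 1)` and `s_k < (N + 1) (d - n - N)`; or
* any variety with a generically finite map, of any degree, to a variety in `ℙ^(M + 1)` which is cut out
  by equations of degree at most `D` and has the regular canonical forms `P(x) ω₀` for all forms `P`
  of degree `m`, for instance a smooth complete intersection of codimension at least two with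
  `K = O(m)`; where for some `N` one has `m ≥ 7 N + 4`, `m + M + 2 > (M + 1) N`, `m + 2 ≥ D + N` and
  `s_k < (N + 1) (m + 2 - N)`; or
* any uniruled variety (in the second part: any unirational variety), without condition on `s_k`.

**Theorem.** Let `V` be the first variety of a tower with the bound `s = 2 r`, and let `W` be a variety
with a dominant rational map `V ⇢ W` of degree `r`, which is arbitrary otherwise. Then `W` is of general
type, or else `p_g(W) = 0`, `κ(W) = -∞`, `K_W` is not pseudo-effective and `W` is uniruled; in the second
part `W` is even unirational in this case.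

Let `X` be a minimal variety (terminal singularities, `K_X` nef) which is birational to such a `W`. It is
not uniruled, so it is of general type, `K_X` is nef and big, and `r K_X` is base point free for some
`r > 0` by the base point free theorem of Kawamata: Q1 has a positive answer for these `X`. The part
of the answer which is proved in Lean is the equality `κ(K_X) = dim X` for pseudo-effective `K_X`; the
degree of `V ⇢ W` may be of the order of `b d ^ 2 / 2`, `b = b_0 ... b_(k - 1)`.

Proof. If `W` is not of general type then at each step `V_i ⇢ W` factors through `V_(i + 1)`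
(`R882.Over.factors_step`), with `[V_(i + 1) : W] = [V_i : W] / b_i`. At the bottom, `W` is unirational
if `V_k` is a hypersurface (`N162.HN.mainG`, a theorem among the helper files of the starting
repository which no result there uses), of general type if `V_k` is a covering of a complete
intersection (`N162.GP.gt_`), and uniruled or unirational if `V_k` is.
-/

set_option autoImplicit false

open FF Pool.Agent.W602.GT
open Pool.Agent.W619.PQ (IsUniruled)
open Pool.Agent.W619.TW (IsUnirational)
open Pool.Agent.R882.Over (GenusZero)
open Pool.Agent.Run7.h260.TW (Tower)

namespace Pool.Agent.Results.MP_5ff3c6_ag.ImagesOfTowers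

/-- **Images of towers: general type or uniruled.** Let `K` be the function field of the first variety
`V` of a tower of dimension `n ≥ 1` with the bound `2 [K : L]`, where `L ⊆ K` is the function field of
`W`. Then these are equivalent: `W` is not of general type; `p_g(W) = 0`; `κ(W) = -∞`; `K_W` is not
pseudo-effective; `W` is uniruled; and, for the towers over unirational varieties, hypersurfaces and
coverings of varieties cut out by equations of low degree: `W` is unirational. -/
theorem result {n : ℕ} (hn : 1 ≤ n) {K : Type} [Field K] [Algebra ℂ K] [Algebra.EssFiniteType ℂ K]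
    (hK : Algebra.trdeg ℂ K = n) (L : Type) [Field L] [Algebra ℂ L] [Algebra L K]
    [IsScalarTower ℂ L K] [FiniteDimensional L K] :
    (Tower 3 n (fun E _ _ => IsUniruled ℂ E n) K (2 * Module.finrank L K) →
      [¬ GeneralType ℂ L n, GenusZero L n, ¬ KodGe ℂ L n (fun _ => False) 0,
        ¬ Psef ℂ L n (fun _ => False), IsUniruled ℂ L n].TFAE) ∧
    (Tower 3 n (fun E _ _ => IsUnirational ℂ E n) K (2 * Module.finrank L K) →
      [¬ GeneralType ℂ L n, GenusZero L n, ¬ KodGe ℂ L n (fun _ => False) 0,
        ¬ Psef ℂ L n (fun _ => False), IsUniruled ℂ L n, IsUnirational ℂ L n].TFAE) :=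
  ⟨fun h => Pool.Agent.Run7.h260.TW.gt_uniruled L hn hK le_rfl le_rfl h,
    fun h => Pool.Agent.Run7.h260.TW.gt_unirational L hn hK le_rfl le_rfl h⟩

end Pool.Agent.Results.MP_5ff3c6_ag.ImagesOfTowers
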