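import Pool.Agent.Run7.h528.NR.Final
import Pool.Agent.Run7.h528.NR.Term
import Pool.Agent.Run7.h528.NN.Log
import Pool.Agent.N110.RK.Stat
import Pool.Agent.N110.NV.Fin
import Pool.Agent.R887.NefP
import Pool.Agent.R887.Exc

/-!
Nilpotent groups of birational self-maps of minimal varieties: the structure of the group modulo the
elements of zero entropy, a bound for the numerical dimension, and abundance.
-/

set_option autoImplicit false

open FF Pool.Agent.W602.GT Pool.Agent.Y172 Pool.Agent.R887 Pool.Agent.N110 Run7.h528.NR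
open Run7.h528.NN

/-- Let `X` be a minimal variety of dimension `n ≥ 1`, with generic point `y`: a normal projective
variety with terminal singularities and nef canonical divisor. By the theorem of Néron and Severi the
group of the divisors on `X` modulo numerical equivalence is finitely generated; this is the
hypothesis `hN`. Let `G` be any nilpotent group of birational self-maps of `X` (not necessarily
abelian or finitely generated), given by a group of automorphisms of the function field. More
generally, let `Δ ≥ 0` be a `ℚ`-divisor such that `(X, Δ)` is terminal, `K_X + Δ` is nef, and the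
elements `g` of `G` preserve `K_X + Δ`: over the prime divisors of `X` the divisor `g^* (K_X + Δ)` is at
most `K_X + Δ` (no condition if `Δ = 0`). Then:

* The elements of `G` are isomorphisms in codimension one.
* The elements of zero entropy in `G`, that is, those with first dynamical degree at most `1`, form a
  normal subgroup `N`, and `G / N` is a free abelian group of finite rank `ρ`, where `ρ ≤ n - 1`:
  there is a surjective homomorphism `Φ` from `G` onto `ℤ ^ ρ` with kernel `N`.
* If `ρ ≥ 1` (that is, if some element has positive entropy) then the numerical dimension and the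
  Kodaira dimension of `K_X + Δ` are at most `n - 1 - ρ`, and they are equal if the Kodaira dimension is
  at least `n - 1 - ρ`. In this case `K_X` is semiample if `Δ = 0`, by the theorem of Kawamata (1985),
  which is not formalised here.
* If `ρ = n - 1 ≥ 1`, then `K_X + Δ` is numerically trivial; nothing is assumed about the irregularity
  of `X`. So, by the theorem of Kawamata (1985), which is not formalised here, some multiple of `K_X` is
  trivial if `Δ = 0`. If moreover `κ (K_X + Δ) ≥ 0` or the irregularity of `X` is zero, then it is proved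
  here that `K_X + Δ` is torsion: `m (K_X + Δ)` has a section `ω ≠ 0` without zeros for some `m ≥ 1`, and
  the Kodaira dimension and the numerical dimension are zero. -/
theorem Pool.Agent.Results.MP_5ff3c6_ag.NilpotentMinimal.result
    {K : Type} [Field K] [Algebra ℂ K] {N n : ℕ} {y : Fin (N + 1) → K} (hy : NormalModel y)
    (hn : Algebra.trdeg ℂ K = n) (hn0 : 0 < n) (hN : NeronSeveri y) {Δ : Place ℂ K → ℚ}
    (hΔ : Effective y Δ) (hT : TerminalPair y n Δ) (hnef : LogNef y n Δ)
    (G : Subgroup (K ≃ₐ[ℂ] K)) (hnil : Group.IsNilpotent G)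
    (hP : Δ = 0 ∨ ∀ g ∈ G, PullLe g y n Δ) :
    (∀ g ∈ G, PseudoAut g y) ∧
    ∃ (ρ : ℕ) (Φ : G →* Multiplicative (Fin ρ → ℤ)), Function.Surjective Φ ∧
      (∀ g : G, Φ g = 1 ↔ dynDegree (g : K ≃ₐ[ℂ] K) y n 1 ≤ 1) ∧ ρ < n ∧
      (0 < ρ → NumDimLt y n Δ (n - ρ) ∧ ¬ KappaGe y n Δ (n - ρ) ∧
        (KappaGe y n Δ (n - ρ - 1) → Abundant y n Δ) ∧
        (ρ + 1 = n → NumTrivial y n Δ) ∧
        (ρ + 1 = n → KappaGe y n Δ 0 ∨ IrregularityZero y →
          kodairaDim y n Δ = ((0 : ℕ) : WithBot ℕ) ∧
          (∀ A, Effective y A → Integral y A → numericalDim y n Δ A = ((0 : ℕ) : EReal)) ∧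
          ∃ m : ℕ, 1 ≤ m ∧ ∃ ω : (Fin n → Derivation ℂ K K) → K, IsSection y n m (m • Δ) ω ∧
            ω ≠ 0 ∧ ∀ P, IsPrimeDivisor y P → OrdEq P ω (-(m * Δ P)))) := by
  have hP' : ∀ g ∈ G, PullLe g y n Δ := by
    rcases hP with rfl | h
    · exact fun g _ => pullLe_terminal hy hn hT g
    · exact h
  have hiso : ∀ g ∈ G, PseudoAut g y := fun g hg =>
    pseudo_of_terminal hy hn hΔ.1 hT hnef (hP' g hg) (hP' g⁻¹ (G.inv_mem hg))
  obtain ⟨ρ, Φ, h1, h2, h3, h4⟩ := struct_main hy hn hn0 hN G hnil hiso
  refine ⟨hiso, ρ, Φ, h1, h2, h3, fun hρ => ?_⟩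
  have h5 := h4 Δ hΔ.2 hP' hρ
  refine ⟨h5, ?_, fun h => ⟨n - ρ - 1, h, ?_⟩, fun h6 => ?_, fun h6 hq => ?_⟩
  · rintro ⟨m, hm, ω, E, hω, h0, hind⟩
    exact kappa_lt hy hn (Nat.sub_le _ _) h5 hm hω h0 hind
  · rwa [show n - ρ - 1 + 1 = n - ρ by omega]
  · rw [show n - ρ = 1 by omega] at h5
    exact nef_numTrivial hy hn hn0 hN hΔ.2 hnef h5
  · rw [show n - ρ = 1 by omega] at h5
    have key : ∃ m : ℕ, 1 ≤ m ∧ ∃ ω : (Fin n → Derivation ℂ K K) → K, ω ≠ 0 ∧
        IsSection y n m (m • Δ) ω := by
      rcases hq with ⟨m, hm, ω, E, hω, h0, -⟩ | hq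
      · exact ⟨m, hm, ω 0, fun h4 => h0 (by rw [h4]; rfl), hω 0⟩
      · obtain ⟨m, hm, ω, hω0, hω⟩ := NV.nonvanishing hy hn hn0 hΔ.2
          (NV.psef_of_nef hy hn hn0 hnef) h5 hq
        exact ⟨m, hm, ω, hω0, hω⟩
    obtain ⟨m, hm, ω, hω0, hω⟩ := key
    obtain ⟨h7, h8⟩ := abundance_zero hy hn hn0 hΔ h5 hm hω hω0
    exact ⟨h7, h8, m, hm, ω, hω, hω0, fun P hP => nef_trivialP hy hn hn0 h5 hnef hm hω hω0 P hP⟩
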